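import Pool.Agent.Zk12.G6All

/-!
# Sections of hyperelliptic curves with rational Weierstrass points and good reduction outside `6`

Let `X` be a hyperelliptic curve over `ℚ` of genus at least `2` all of whose Weierstrass points are
rational.  Suppose that `X` has good reduction at all primes except possibly `2` and `3`.  Move one of
the Weierstrass points to infinity.  Then `X` has an equation

  `a y ^ 2 = (x - e₁) ⋯ (x - eₙ)`,  `n ≥ 5`,

where `a` and all differences `eᵢ - eⱼ`, `i ≠ j`, are units outside `6`, that is, numbers of the form
`± 2 ^ k 3 ^ l`, and every such equation defines a curve with good reduction outside `6`.  (By the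
`S`-unit equation one has `n = 5`, so `X` has genus `2`, and the branch points are up to a projective
transformation `∞, 0, ± 1, ± 3` or `∞, 0, ± 1, ± 2`.  This is part of the proof below.)  We prove in
particular:

*Let `s` be a section of the geometrically pro-`2` fundamental group `π₁(X)^(2) → G_ℚ` which over
`ℚ₂` is given by a local point.  Then `s` is the section of a rational point of `X`, and this is one
of the six Weierstrass points.*

Nothing is assumed at the other primes or at infinity.

The theorem is stated for the function fields `F` of transcendence degree one over `ℚ` with a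
nonconstant element `x`, and for the sections `s` of a quotient `Gal(N/F)` of the absolute Galois
group of `F` which fix an element `y` of `N` with `a y ^ 2 = (x - e₁) ⋯ (x - eₙ)`, where `N` contains
the field `N₀` such that `Gal(N₀/ℚ(x, y))` is the geometrically pro-`2` fundamental group of `X`.  So
it contains the following cases.

* `y` is in `F`, so that `F` is the function field of a curve with a nonconstant map to `X`.  Here
  `Gal(N/F)` may be the fundamental group of the curve or of an open subscheme of it
  (`proTwo_unramified` below).  This contains the case of `X` itself, with `F = ℚ(x, y)`, `N = N₀`.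
* `y` is not in `F`, for example `F = ℚ(x)`, the function field of the line minus six points.  The
  condition on `s` is that the function `(x - e₁) ⋯ (x - eₙ) / a` is a square along `s`.

The local point is a place `p` of `N` with values in an algebraic closure `C` of `ℚ₂`.  The
conclusion is that `x` has the value `∞` or `eᵢ` for some `i` at `p`, and that all automorphisms `s g`
map the valuation ring of `p` on `N₀` to itself.  So the section of `Gal(N₀/ℚ(x, y))` which is induced
by `s` has image in the decomposition group of a valuation ring of `N₀` above a rational Weierstrass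
point; this means that it is the section attached to this point.

Proof.  Let `L` be the fixed field of `s` in `N₀`.  The field `N₀` contains the square roots of the
functions `x - eᵢ`.  By Hilbert 90, `x - eᵢ` is a rational number `αᵢ` times a square in `L`.  If `q`
is a prime number different from `2` and `3`, the inertia group at `q` acts, through `s`, trivially on
the residue field of a Gauss valuation of `N₀`, by a weight argument that uses the good reduction of
`X`.  So `αᵢ` is, up to squares, a divisor of `6`.  The place `p` gives a place of `L` with values in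
`ℚ₂`, and there is information at the real place: if `αᵢ < 0 < αⱼ`, then `eᵢ > eⱼ`.  A computation
with these conditions shows that the `αᵢ` are the classes of one of the Weierstrass points.  Moving
this point to infinity one finds points with coordinates in `L`, which are not constant, on one of the
elliptic curves `y² = (x - 10)(x - 6)(x + 6)`, `y² = x³ - 4 x`, `y² = x³ - 9 x`.  The same arguments
show that Fermat's descent works for `L`-rational points on these curves; so these points are
divisible by all powers of `2`, up to points of order `2`, and thus their `2`-adic values are `0`.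
This proves that the local point is the Weierstrass point.  Finally, let `c` be the involution in
`Gal(N₀/ℚ̄(x))` that fixes the valuation ring of `p` on `N₀`.  If `s` did not commute with `c`, the
first place in the tower of `2`-extensions where this is seen would give a nontrivial quadratic
character of `G_ℚ` which is unramified outside `6` and trivial at `2`.  There is no such character.
-/

set_option autoImplicit false

open IsDedekindDomain NumberField Pool.Agent.W620.SC Pool.Agent.TH954

namespace Pool.Agent.Results.MP_c1dca2_ag.GoodOutsideSix

section definitions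

/-- The rational number `q` is a unit outside `6`: it is of the form `± 2 ^ k 3 ^ l` with integers
`k`, `l`. -/
def UnitOutsideSix (q : ℚ) : Prop :=
  ∃ k l : ℤ, q = 2 ^ k * 3 ^ l ∨ q = -(2 ^ k * 3 ^ l)

/-- The maximal geometrically pro-`2` unramified extension `N₀` of `ℚ(x, y)` in `Ω`: the compositum of
the finite Galois extensions in `Ω` of `ℚ̄(x, y)` whose degree is a power of `2` and in which no
valuation ring over `ℚ̄` ramifies. -/
noncomputable def ProTwo {Ω : Type} [Field Ω] [Algebra ℚ Ω] (x y : Ω) : Set Ω :=
  Pool.Agent.Y157.PS.geomPro 2 ℚ (IntermediateField.adjoin ℚ {x, y}) Ω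

end definitions

/-- If `x`, `y` are in `F`, the extension `N₀` is contained in the maximal extension of `F` which is
unramified at a set `U` of valuation rings over `ℚ`; so the theorem applies to the fundamental group
of every curve with function field `F`. -/
theorem proTwo_unramified {F Ω : Type} [Field F] [Field Ω] [Algebra ℚ F] [Algebra F Ω]
    [Algebra ℚ Ω] [IsScalarTower ℚ F Ω] [IsAlgClosed Ω] [Algebra.IsAlgebraic F Ω]
    (x y : F) (hx : Transcendental ℚ x)
    (hF : Algebra.IsAlgebraic (IntermediateField.adjoin ℚ {x}) F) (U : Set (ValuationSubring F))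
    (hU : ∀ O ∈ U, ∀ c : ℚ, algebraMap ℚ F c ∈ O) :
    ProTwo (algebraMap F Ω x) (algebraMap F Ω y) ⊆ unramified F Ω U :=
  haveI : Fact (Nat.Prime 2) := ⟨Nat.prime_two⟩
  fun z hz => Pool.Agent.Y158.FQ.geomPro_unr' 2 x hx hF _
    (IntermediateField.subset_adjoin ℚ _ (by simp)) U hU z
    ((Pool.Agent.Y158.FQ.geomPro_base (k := ℚ) (K := ℚ) (X := x) (Y := y) (c := 1) (c' := 1)
      (one_mem _) (one_mem _) one_ne_zero one_ne_zero (by rw [one_mul]) (by rw [one_mul]) z).2 hz)

/-- Rational numbers all of whose differences are units outside `6`: there are at most five of them.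
So the curves in the theorem have genus `2`. -/
theorem at_most_five {n : ℕ} (e : Fin n → ℚ) (he : ∀ i j, i ≠ j → UnitOutsideSix (e i - e j)) :
    n ≤ 5 := by
  have hinj : Function.Injective e := by
    intro i j h
    by_contra hij
    have h1 := Pool.Agent.Zk12.G6.U6.ne_zero (he i j hij)
    exact h1 (sub_eq_zero.2 h)
  have hc : (Finset.univ.image e).card = n := by
    rw [Finset.card_image_of_injective _ hinj, Finset.card_univ, Fintype.card_fin]
  rw [← hc]
  refine Pool.Agent.Zk12.G6.card_le_five fun x hx y hy hxy => ?_
  rw [Finset.mem_image] at hx hy
  obtain ⟨i, -, rfl⟩ := hx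
  obtain ⟨j, -, rfl⟩ := hy
  exact he i j fun h => hxy (by rw [h])

end Pool.Agent.Results.MP_c1dca2_ag.GoodOutsideSix

open Pool.Agent.Results.MP_c1dca2_ag.GoodOutsideSix in
/-- **Sections of hyperelliptic curves with rational Weierstrass points and good reduction outside
`6`.**  Let `e₁, …, eₙ`, `n ≥ 5`, be rational numbers, all of whose differences are units outside `6`,
let `a` be a unit outside `6`, let `F` be a function field of transcendence degree one over `ℚ` with
algebraic closure `Ω`, and let `x` be a nonconstant element of `F`.  Let `N` be an extension of `F` in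
`Ω`, let `s` be a section of `Gal(N/F) → G_ℚ`, and let `y` be an element of `N` with
`a y ^ 2 = (x - e₁) ⋯ (x - eₙ)` that is fixed by `s`, for example an element of `F`.  Assume that `N`
contains `ProTwo x y`, and let `p` be a place of `N` with values in an algebraic closure of `ℚ₂` that
gives `s` over `ℚ₂`.  Then `x` has the value `∞` or `eᵢ` for some `i` at `p`, and `s` is, on
`ProTwo x y`, a section with values in the decomposition group of `p`. -/
theorem Pool.Agent.Results.MP_c1dca2_ag.GoodOutsideSix.result
    (n : ℕ) (hn : 5 ≤ n) (e : Fin n → ℚ) (he : ∀ i j, i ≠ j → UnitOutsideSix (e i - e j))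
    (a : ℚ) (ha : UnitOutsideSix a)
    (F Ω B C : Type) [Field F] [Field Ω] [Field B] [Field C] [Algebra ℚ F] [Algebra F Ω]
    [Algebra ℚ Ω] [Algebra ℚ B] [IsScalarTower ℚ F Ω] [IsAlgClosed Ω] [Algebra.IsAlgebraic F Ω]
    [IsAlgClosure ℚ B] [Algebra ℚ_[2] C] [IsAlgClosure ℚ_[2] C] [Algebra ℚ C]
    (x : F) (hx : Transcendental ℚ x)
    (hF : Algebra.IsAlgebraic (IntermediateField.adjoin ℚ {x}) F)
    (N : IntermediateField F Ω) (s : GalSection ℚ F N B) (y : N)
    (hxy : algebraMap ℚ N a * y ^ 2 = algebraMap F N (∏ i, (x - algebraMap ℚ F (e i))))
    (hys : ∀ g : B ≃ₐ[ℚ] B, s.s g y = y)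
    (hN : ProTwo (algebraMap F Ω x) (y : Ω) ⊆ N)
    (p : Plc ℚ N C) (hp : s.GivenBy ℚ_[2] p) :
    (p.val (algebraMap F N x)⁻¹ 0 ∨ ∃ i, p.val (algebraMap F N x) (algebraMap ℚ C (e i))) ∧
    ∀ (g : B ≃ₐ[ℚ] B) (z : N), (z : Ω) ∈ ProTwo (algebraMap F Ω x) (y : Ω) →
      (s.s g z ∈ p.W ↔ z ∈ p.W) := by
  have hinj : Function.Injective e := by
    intro i j h
    by_contra hij
    have h1 := Pool.Agent.Zk12.G6.U6.ne_zero (he i j hij)
    exact h1 (sub_eq_zero.2 h)
  have hc : (Finset.univ.image e).card = n := by
    rw [Finset.card_image_of_injective _ hinj, Finset.card_univ, Fintype.card_fin]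
  have hS := Pool.Agent.Zk12.G6.sol_all (S := Finset.univ.image e) (by omega)
    fun x hx y hy hxy => by
      rw [Finset.mem_image] at hx hy
      obtain ⟨i, -, rfl⟩ := hx
      obtain ⟨j, -, rfl⟩ := hy
      exact he i j fun h => hxy (by rw [h])
  have hpr : ∏ z ∈ Finset.univ.image e, (x - algebraMap ℚ F z) =
      ∏ i, (x - algebraMap ℚ F (e i)) := Finset.prod_image fun i _ j _ h => hinj h
  haveI : IsScalarTower ℚ ℚ_[2] C := IsScalarTower.of_algebraMap_eq' (Subsingleton.elim _ _)
  obtain ⟨h1, h2⟩ := hS F Ω B C a ha x hx hF N s y (by rw [hpr]; exact hxy) hys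
    (fun z hz => hN hz) p hp
  refine ⟨?_, h2⟩
  rcases h1 with h1 | ⟨z, hz, h1⟩
  · exact Or.inl h1
  · right
    rw [Finset.mem_image] at hz
    obtain ⟨i, -, rfl⟩ := hz
    exact ⟨i, h1⟩
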