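import Pool.Agent.Zk49.Orb
import Pool.Agent.N756.RW.MainDP
import Pool.Agent.Results.MP_2f3286_ag.SectionsOfRandomCurves

/-!
# Sections of the fundamental groups of curves in large families, along the random orbits of thin groups

`E_i : y² = x³ + a_i x + b_i` (`i = 1, …, r`) are elliptic curves over `ℚ` with complex multiplication,
of arbitrary rank and without hypothesis on their Tate-Shafarevich groups, `A = E_1 × … × E_r`, `K` is a
number field with integral basis `ω`, `𝒯 = {Φ_l = 0} ⊆ A × ℙᵐ` a closed subvariety over `𝓞 K` with fibres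
of dimension at most `κ` over `A`, and `X_c = 𝒯 ∩ {F_1 = … = F_s = 0}`, where `F_j` runs through all forms
of multidegree `(d_j; e_j)` and `c` is the integral vector of the coordinates of all their coefficients
with respect to `ω`; `D ≥ 1`, `r > 2 D (r + κ - s)` (for curves `X_c`: `r > 2 D`), and the degrees are at
least `D - 1`. This is the setting of the starting result
`Pool.Agent.Results.MP_2f3286_ag.SectionsOfRandomCurves` (whose definitions are used).

Say that `X_c` has no sections (`NoSections`) if there is ONE squarefree level `N` such that for ALL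
number fields `F` containing `K` with `[F : ℚ] ≤ D` and for all smooth curves `C` over `F` with a map to
`X_c` (in particular for the open parts of the curve `X_c` over `F`) there is no section of `π₁(C) → G_F`
which is given over `F_w` by a point or a cusp of `C` for all finite places `w` of `F`, even for the
quotient of `π₁(C)` given by the pull-back of the covering `[N]` of `A`; and there is no section at all of
`Gal(Ω/L) → G_F`, where `L` is the function field of `C` and `Ω` its algebraic closure (no birational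
section). Then these curves satisfy the section conjecture for the locally geometric sections, and the
birational section conjecture, over all these `F`.

**Theorem, UNCONDITIONAL.** (1) The set of the `c` for which it is not true that `X_c` has no sections is
pronull: for every `M` its closure in the product of the `ℤ_p ^ n` over the primes `p ∤ M` has Haar measure
zero.

(2) Let `W` be a finite family of matrices in `SL_n(ℤ)`, `n = |J| [K:ℚ] ≥ 2`, which generates `SL_n(ℤ/q)`
for all `q` prime to some `q₀`; by strong approximation every finite family that generates a Zariski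
dense subgroup of `SL_n` is such a family, for instance generators of a thin subgroup, of infinite index in
`SL_n(ℤ)`. Let `c_0 = v`, `c_(t+1) = s_(w t) c_t` for independent uniformly distributed `w t`. Then for
almost every word `w` there is ONE set `E` of times of density zero such that for ALL `v ≠ 0`, ALL
products `A` of `r` elliptic curves as above and ALL `𝒯 ⊆ A × ℙᵐ` as above, `X_(c_t)` has no sections for
all but finitely many `t ∉ E`.

The orbits have only exponential growth; a thin orbit has far too few points of a given size for a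
statement about boxes to apply to it. The starting result treats boxes, and the starting result
`MP_308fa9_nt.RandomOrbits` the Brauer-Manin sets along random orbits, for one `v`, `A` and `𝒯`.

Proof. A section which is given over all completions `F_w` by points or cusps gives an element of the
`N`-Selmer set of `X_c` over `F`, `N Q = P`, `g ↦ s(g) Q - Q` (helper890; the birational sections have
this property by the theorem of Koenigsmann, proved in `Pool.Agent.N890.KO`). The `c` with Selmer classes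
of all squarefree levels over fields of degree at most `D` are pronull (`Pool.Agent.N756.RW.selNull`,
helper756), and random orbits are in a pronull set only for times of density zero (`Pool.Agent.N24.RW`,
helper24). There are countably many `v`, `A`, `𝒯`, and a diagonal argument gives one set `E`.
-/

set_option autoImplicit false

namespace Pool.Agent.Results.MP_c1dca2_ag.SectionsAlongThinOrbits

open MeasureTheory Filter Topology
open Pool.Agent.N24.RW (Walk orb words ProNull)

open MvPolynomial NumberField IsDedekindDomain Pool.Agent.TH954 Pool.Agent.W620.SC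

open scoped LinearAlgebra.Projectivization

open Pool.Agent.Results.MP_2f3286_ag.SectionsOfRandomCurves (value OnCurve Multihomogeneous Coeffs
  IsOver NoSection NoBirationalSection FewPoints Supersingular birational_of supersingular_of)

/-- `E` has natural density zero. -/
def DensityZero (E : Set ℕ) : Prop :=
  Tendsto (fun N : ℕ => (({x : ℕ | x < N ∧ x ∈ E}.ncard : ℕ) : ℝ) / (N : ℝ)) atTop (𝓝 0)

/-- The index type of the coordinates (with respect to the integral basis) of all the coefficients of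
the forms `F_1, …, F_s`. -/
abbrev Index (n₀ : ℕ) {r s : ℕ} (m : ℕ) (d : Fin s → Fin r → ℕ) (e : Fin s → ℕ) : Type :=
  Coeffs m d e × Fin n₀

/-- the vector in `(𝓞 K)ᴶ` with the coordinates `c` with respect to the integral basis `ω` -/
noncomputable def vect {K : Type} [Field K] [NumberField K] {n₀ : ℕ}
    (ω : Module.Basis (Fin n₀) ℤ (𝓞 K)) {J : Type} (c : J × Fin n₀ → ℤ) : J → 𝓞 K :=
  fun x => ∑ i, c (x, i) • ω i

/-- For ONE squarefree level `N` and ALL number fields `F` over `K` with `[F : ℚ] ≤ D` there are no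
sections which are given by points or cusps over the `F_w`, even at the level `N`, and no birational
sections, for all curves with a map to `X_c`. -/
def NoSections {K : Type} [Field K] [NumberField K] {r s m q : ℕ} (a b : Fin r → ℤ)
    (Φ : Fin q → MvPolynomial ((Fin r × Fin 3) ⊕ Fin (m + 1)) (𝓞 K))
    {d : Fin s → Fin r → ℕ} {e : Fin s → ℕ} (D : ℕ) (c : Coeffs m d e → 𝓞 K) : Prop :=
  ∃ N : ℕ, 1 ≤ N ∧ Squarefree N ∧
    ∀ (F : Type) [Field F] [NumberField F] [Algebra K F], Module.finrank ℚ F ≤ D →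
      NoSection a b Φ c F N ∧ NoBirationalSection a b Φ c F

/-- The closed subvariety `𝒯 = {Φ_l = 0}` of `A × ℙᵐ`, where `A` is the product of the elliptic curves
`y² = x³ + a_i x + b_i` with complex multiplication: its equations are multihomogeneous, and its fibres
over `A` have dimension at most some `κ` with `2 D (r + κ - s) < r` (in the sense of `FewPoints`). -/
def Suitable {K : Type} [Field K] [NumberField K] {r m q : ℕ} (s D : ℕ) (a b : Fin r → ℤ)
    (Φ : Fin q → MvPolynomial ((Fin r × Fin 3) ⊕ Fin (m + 1)) (𝓞 K)) : Prop :=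
  (∀ i, Supersingular (a i) (b i)) ∧
  (∃ (d' : Fin q → Fin r → ℕ) (e' : Fin q → ℕ), ∀ l, Multihomogeneous (Φ l) (d' l) (e' l)) ∧
  ∃ κ : ℕ, s ≤ r + κ ∧ 2 * D * (r + κ - s) < r ∧ ∃ B : ℝ, FewPoints a b Φ κ B D

/-- the data -/
abbrev Dat (K : Type) [Field K] [NumberField K] (r m : ℕ) : Type :=
  (Fin r → ℤ) × (Fin r → ℤ) × (Σ q : ℕ, (Fin q → MvPolynomial ((Fin r × Fin 3) ⊕ Fin (m + 1)) (𝓞 K)))

lemma countable_dat {K : Type} [Field K] [NumberField K] {n₀ : ℕ}
    (ω : Module.Basis (Fin n₀) ℤ (𝓞 K)) (r m : ℕ) : Countable (Dat K r m) := by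
  have h1 : Countable (𝓞 K) := ω.equivFun.toEquiv.countable_iff.2 inferInstance
  have h2 : Countable (MvPolynomial ((Fin r × Fin 3) ⊕ Fin (m + 1)) (𝓞 K)) := by
    rw [← Cardinal.mk_le_aleph0_iff]
    refine MvPolynomial.cardinalMk_le_max.trans ?_
    refine max_le (max_le ?_ ?_) le_rfl
    · rw [Cardinal.mk_le_aleph0_iff]
      exact h1
    · exact Cardinal.mk_le_aleph0
  infer_instance

/-- the exceptional members are pronull -/
theorem null {K : Type} [Field K] [NumberField K] {n₀ : ℕ}
    (ω : Module.Basis (Fin n₀) ℤ (𝓞 K)) {r s m q : ℕ} (a b : Fin r → ℤ) (D : ℕ) (hD : 1 ≤ D)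
    (d : Fin s → Fin r → ℕ) (e : Fin s → ℕ) (hd : ∀ j i, D ≤ d j i + 1) (he : ∀ j, D ≤ e j + 1)
    (Φ : Fin q → MvPolynomial ((Fin r × Fin 3) ⊕ Fin (m + 1)) (𝓞 K)) (hS : Suitable s D a b Φ) :
    ProNull {c : Index n₀ m d e → ℤ | ¬ NoSections a b Φ D (vect ω c)} := by
  obtain ⟨hE, ⟨d', e', hΦ⟩, κ, hs, hr, B, M, p₁, hM, hpts⟩ := hS
  choose hdisc M₁ D₁ hM₁ hD₁ hss using hE
  have hsel := Pool.Agent.N756.RW.selNull K r m κ s D n₀ hD hs
    (by rw [← mul_assoc]; exact hr) a b hdisc (∏ i, M₁ i)
    (∏ i, D₁ i) (Finset.prod_pos fun i _ => hM₁ i) (Finset.prod_pos fun i _ => hD₁ i)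
    (fun i p hp hpD hpM => hss i p hp
      (fun h => hpD (h.trans (Finset.dvd_prod_of_mem _ (Finset.mem_univ i))))
      ((Finset.dvd_prod_of_mem _ (Finset.mem_univ i)).trans hpM)) Φ d' e'
    hΦ ω d e hd he B M p₁ hM (fun p _ hp hM => hpts p hp hM)
  intro M' hM' ε hε
  obtain ⟨Q, hQ, hQM, h⟩ := hsel M' hM' ε hε
  refine ⟨Q, hQ, hQM, le_trans ?_ h⟩
  have : NeZero Q := ⟨hQ.ne'⟩
  refine Nat.cast_le.2 (Set.ncard_le_ncard (Set.image_mono ?_) (Set.toFinite _))
  intro c hc N hN hNs
  have hc' : ¬ NoSections a b Φ D (vect ω c) := hc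
  have h' : ¬ ∀ (F : Type) [Field F] [NumberField F] [Algebra K F], Module.finrank ℚ F ≤ D →
      NoSection a b Φ (vect ω c) F N := fun h1 => hc' ⟨N, hN, hNs, fun F _ _ _ hF =>
        ⟨h1 F hF, birational_of a b Φ (vect ω c) F N (h1 F hF)⟩⟩
  push Not at h'
  obtain ⟨F, _, _, _, hF, h⟩ := h'
  refine ⟨F, inferInstance, inferInstance, inferInstance, hF, ?_⟩
  unfold NoSection at h
  push Not at h
  obtain ⟨L, Ω, R, A, _, _, _, _, _, _, _, _, _, _, _, _, _, _, f, P, ⟨T, hT, h4, h5⟩, hL, s, hs⟩ := h
  refine Pool.Agent.N890.DU.isSel_of_large _ a b hdisc _ (Sum.elim d' d) (Sum.elim e' e)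
    (Pool.Agent.N89.CI.mhomog_family Φ d' e' hΦ d e) N hN _ f P ⟨T, hT, fun l => ?_⟩ s hL hs
  rcases l with l | j
  · simp only [Sum.elim_inl]
    rw [Pool.Agent.N89.CI.valP_lift0]
    exact h4 l
  · simp only [Sum.elim_inr]
    rw [Pool.Agent.N89.CI.valP_gen]
    exact h5 j

/-- one set of times of density zero for all vectors, all elliptic curves and all `𝒯` -/
theorem along {K : Type} [Field K] [NumberField K] {n₀ : ℕ}
    (ω : Module.Basis (Fin n₀) ℤ (𝓞 K)) {r s : ℕ} (D : ℕ) (hD : 1 ≤ D) (m : ℕ)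
    (d : Fin s → Fin r → ℕ) (e : Fin s → ℕ) (hd : ∀ j i, D ≤ d j i + 1) (he : ∀ j, D ≤ e j + 1)
    [DecidableEq (Index n₀ m d e)] (hn : 2 ≤ Fintype.card (Index n₀ m d e))
    (W : Walk (Index n₀ m d e)) :
    ∀ᵐ w ∂(words W.m), ∃ E : Set ℕ, DensityZero E ∧ ∀ v : Index n₀ m d e → ℤ, v ≠ 0 →
      ∀ (q : ℕ) (a b : Fin r → ℤ) (Φ : Fin q → MvPolynomial ((Fin r × Fin 3) ⊕ Fin (m + 1)) (𝓞 K)),
        Suitable s D a b Φ → {t : ℕ | t ∉ E ∧ ¬ NoSections a b Φ D (vect ω (orb W v w t))}.Finite := by
  have hcount := countable_dat ω r m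
  let κ' : Type := {x : Dat K r m // Suitable s D x.1 x.2.1 x.2.2.2}
  have hcount' : Countable κ' := Subtype.countable
  filter_upwards [Pool.Agent.Zk49.orbits hn W (κ := κ')
    (fun x => {c : Index n₀ m d e → ℤ | ¬ NoSections x.1.1 x.1.2.1 x.1.2.2.2 D (vect ω c)})
    (fun x => null ω x.1.1 x.1.2.1 D hD d e hd he x.1.2.2.2 x.2)] with w hw
  obtain ⟨E, h1, h2⟩ := hw
  exact ⟨E, h1, fun v hv q a b Φ hS => h2 v hv ⟨⟨a, b, q, Φ⟩, hS⟩⟩

/-- `𝒯 = A × ℙᵐ` -/
lemma suitable_univ {K : Type} [Field K] [NumberField K] {r : ℕ} (s D m : ℕ) (a b : Fin r → ℤ)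
    (hE : ∀ i, Supersingular (a i) (b i)) (hs : s ≤ r + m) (hr : 2 * D * (r + m - s) < r) :
    Suitable (K := K) (m := m) s D a b (fun l : Fin 0 => l.elim0) := by
  refine ⟨hE, ⟨fun l => l.elim0, fun l => l.elim0, fun l => l.elim0⟩, m, hs, hr, 3 / 2, 1, 3,
    one_pos, ?_⟩
  intro p hp hp3 _ k _ _ _ _ φ V hV
  have h1 : {P : ℙ k (Fin (m + 1) → k) |
      ∀ l : Fin 0, value φ (l.elim0 : MvPolynomial ((Fin r × Fin 3) ⊕ Fin (m + 1)) (𝓞 K)) V
        P.rep = 0} = Set.univ :=
    Set.eq_univ_of_forall fun P l => l.elim0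
  have h3 : 3 ≤ Nat.card k := by
    rw [Nat.card_eq_fintype_card]
    refine hp3.trans ?_
    have h4 := Fintype.card_le_of_injective _ (algebraMap (ZMod p) k).injective
    rwa [ZMod.card] at h4
  rw [h1, Set.ncard_univ]
  have h2 := Pool.Agent.N89.CI.density_fun (k := k) (m := m) (κ := m) h3 rfl
  rwa [Nat.card_eq_fintype_card (α := k)] at h2

/-- `𝒯 = A × Y` for a hypersurface `Y : f = 0` in `ℙ^(κ+1)` over `K` -/
lemma suitable_hyp {K : Type} [Field K] [NumberField K] {r : ℕ} (s D κ : ℕ) (a b : Fin r → ℤ)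
    (hE : ∀ i, Supersingular (a i) (b i)) (hs : s ≤ r + κ) (hr : 2 * D * (r + κ - s) < r)
    (g : ℕ) (f : MvPolynomial (Fin (κ + 2)) (𝓞 K)) (hf : f.IsHomogeneous g) (hf0 : f ≠ 0) :
    Suitable (K := K) (m := κ + 1) s D a b (fun _ : Fin 1 => rename Sum.inr f) := by
  obtain ⟨p₁, hp₁⟩ := Pool.Agent.N890.DU.hyp_countK κ g f hf hf0
  refine ⟨hE, ⟨fun _ _ => 0, fun _ => g, fun _ => ?_⟩, κ, hs, hr, 2 * g, 1, p₁, one_pos, ?_⟩
  · intro x hx
    classical
    obtain ⟨y, hy1, hy2⟩ := coeff_rename_ne_zero _ _ _ (mem_support_iff.1 hx)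
    subst hy1
    refine ⟨fun i => Finset.sum_eq_zero fun j _ => ?_, ?_⟩
    · rw [Finsupp.mapDomain_of_notMem_range]
      simp
    · have h1 := hf hy2
      rw [Finsupp.weight_apply, Finsupp.sum_fintype _ _ (fun _ => by simp)] at h1
      rw [← h1]
      refine Finset.sum_congr rfl fun i _ => ?_
      rw [Finsupp.mapDomain_apply Sum.inr_injective]
      simp
  · intro p hp hp1 _ k _ _ _ _ φ V hV
    refine le_trans (le_of_eq ?_) (hp₁ p hp1 k φ)
    congr 2
    ext P
    simp only [Set.mem_ofPred_eq]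
    unfold value
    rw [eval₂_rename]
    simp only [Sum.elim_comp_inr]
    exact ⟨fun h => h 0, fun h _ => h⟩

open scoped Classical in
/-- **The members `X_c` of these linear systems over `K` for which there may be sections are pronull, and
along the random orbits of thin groups they occur only at times of density zero, with one exceptional set
for all initial vectors, all elliptic curves and all `𝒯`.** -/
theorem result (K : Type) [Field K] [NumberField K] (n₀ : ℕ)
    (ω : Module.Basis (Fin n₀) ℤ (𝓞 K)) (r s D : ℕ) (hD : 1 ≤ D) :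
    (∀ (m : ℕ) (d : Fin s → Fin r → ℕ) (e : Fin s → ℕ), (∀ j i, D ≤ d j i + 1) →
      (∀ j, D ≤ e j + 1) →
      (∀ (q : ℕ) (a b : Fin r → ℤ)
        (Φ : Fin q → MvPolynomial ((Fin r × Fin 3) ⊕ Fin (m + 1)) (𝓞 K)), Suitable s D a b Φ →
        ProNull {c : Index n₀ m d e → ℤ | ¬ NoSections a b Φ D (vect ω c)}) ∧
      (2 ≤ Fintype.card (Index n₀ m d e) → ∀ W : Walk (Index n₀ m d e), ∀ᵐ w ∂(words W.m),
        ∃ E : Set ℕ, DensityZero E ∧ ∀ v : Index n₀ m d e → ℤ, v ≠ 0 →
          ∀ (q : ℕ) (a b : Fin r → ℤ)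
            (Φ : Fin q → MvPolynomial ((Fin r × Fin 3) ⊕ Fin (m + 1)) (𝓞 K)),
            Suitable s D a b Φ →
            {t : ℕ | t ∉ E ∧ ¬ NoSections a b Φ D (vect ω (orb W v w t))}.Finite)) ∧
    -- the curves `y² = x³ + a x` and `y² = x³ + b`
    (∀ a b : ℤ, a * b = 0 → (a ≠ 0 ∨ b ≠ 0) → Supersingular a b) ∧
    -- `𝒯 = A × ℙ^κ`, and `𝒯 = A × Y` for a hypersurface `Y : f = 0` in `ℙ^(κ+1)` over `K`
    (∀ (κ : ℕ) (a b : Fin r → ℤ), (∀ i, Supersingular (a i) (b i)) → s ≤ r + κ →
      2 * D * (r + κ - s) < r →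
      Suitable (K := K) (m := κ) s D a b (fun l : Fin 0 => l.elim0) ∧
      ∀ (g : ℕ) (f : MvPolynomial (Fin (κ + 2)) (𝓞 K)), f.IsHomogeneous g → f ≠ 0 →
        Suitable (K := K) (m := κ + 1) s D a b (fun _ : Fin 1 => rename Sum.inr f)) := by
  refine ⟨fun m d e hd he => ⟨fun q a b Φ hS => null ω a b D hD d e hd he Φ hS, fun hn W => ?_⟩,
    supersingular_of, fun κ a b hE hs hr => ⟨suitable_univ s D κ a b hE hs hr,
      fun g f hf hf0 => suitable_hyp s D κ a b hE hs hr g f hf hf0⟩⟩
  exact along ω D hD m d e hd he hn W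

end Pool.Agent.Results.MP_c1dca2_ag.SectionsAlongThinOrbits
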