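import Pool.Agent.W262.G3.Fin2
import Pool.Agent.W623.SecG.Loc2
import Pool.Agent.TH213.SEL.Transp
import Pool.Agent.Zk12.Two

/-!
# Almost all quadratic twists: sections which are given by a point over `ℚ₂` only

Let `N ≥ 6` be even and let `e_1, …, e_N` be different integers.  For squarefree `d` let `C_d` be the
curve `d y² = ∏ (x - e_i)` of genus `(N - 2) / 2`, with its rational points `P_i = (e_i, 0)`.  Suppose
that for every `i` four of the numbers `1 / (e_l - e_i)`, `l ≠ i`, form an arithmetic progression, and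
the condition `CrossRatio` below.  This is so for `0, 6, 10, 15, 30, -30` (genus `2`) and for the
consecutive integers `0, 1, …, N - 1` for every even `N ≥ 16`, that is, for the quadratic twists

  `d y² = x (x - 1) ⋯ (x - N + 1)`

of the Erdős–Selfridge curves (genus `7, 8, 9, …`).

We prove without any unproved hypothesis: for all squarefree `d`, `|d| ≤ X`, with at most
`C X (log X)^(-1/5)` exceptions, the following holds for every section `s` of `π₁(U) → G_ℚ`, where `U`
is `C_d` or an open subcurve, or a regular curve or variety over `ℚ` with a dominant rational map to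
`C_d`: there is an `i` such that, if `s` is given over `ℚ₂` by a local point, then this local point is
over `P_i`.

Nothing is assumed about `s` at the other primes, and nothing about the Jacobian of `C_d` (there is no
condition on ranks or on Tate–Shafarevich groups).  For `U = C_d` the statement is that the section
and the section of the rational point `P_i` coincide over `ℚ₂`.  The curves `C_d` have
the rational points `P_i`, so they have sections, and for the affine curves
`C_d - {P_1, …, P_N}` the conclusion is: no section is given over `ℚ₂` by a point of the curve.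

The fundamental group is described through valuations.  Let `F` be a field over `ℚ`, let `Ω` be an
algebraic closure of `F`, let `U` be a set of valuation rings of `F` over `ℚ`, and let `F_U` be the
maximal extension of `F` inside `Ω` which is unramified over the valuation rings in `U`.  If `U` is
the set of local rings at the closed points of a smooth curve with function field `F` then
`π₁ = Gal(F_U/F)`, and the map `π₁ → G_ℚ` is the restriction of automorphisms.

Proof.  By a theorem of the starting library (helper623, helper262), for almost all `d` every section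
has modulo 2 the type of one branch point `P_i`: the functions
`(x - e_l) (x - e_m) (e_i - e_l) (e_i - e_m)`, `l, m ≠ i`, have square roots in `F_U` which are fixed
by the section.  For four indices `l` as above these square roots give, in the fixed field `L` of the
section, a nonconstant solution of Fermat's equations for four squares in arithmetic progression, and
so a nonconstant point `Q` with coordinates in `L` of `E : y² = (x - 10) (x - 6) (x + 6)`.  This
elliptic curve has conductor 24 and 8 rational points, and it does not depend on `d` or `i`.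

The new part is that Fermat's descent works over `L`: if `(x, y)` is any nonconstant point of `E` over
`L`, then `x - 10`, `x - 6`, `x + 6` are products of squares of `L` with units outside `6`.  By
Hilbert's Theorem 90 they are rational numbers times squares of `L`.  These numbers are unramified at
every prime `q ≥ 5`, although the section is arbitrary at `q` (its restriction to `ℚ_q` need not come
from a point, and `C_d` may have bad reduction at `q`); this follows from a weight argument for the
action of the inertia group at `q` on the residue field of a Gauss valuation, because `E` has good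
reduction at `q`.  So `Q` is, up to points of order 2, divisible by all powers of `2` in `E(L)`.  The
local point gives a place of `L` with values in `ℚ₂`, and it follows that the value of `Q` in `E(ℚ₂)`
is a point of finite order.  One finds that this is a point at which `1 / (x - e_i)` is infinite.
-/

set_option autoImplicit false

open IsDedekindDomain NumberField Pool.Agent.W620.SC Pool.Agent.TH954

namespace Pool.Agent.Results.MP_c1dca2_ag.TwistsLocalAtTwo

/-- The condition on `d`: let `F` be a field over `ℚ` with elements `x`, `y` such that `x` is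
transcendental over `ℚ` and `d y² = ∏ (x - e_i)`, for example the function field of the curve with
this equation.  Let `U` be a set of valuation rings of `F` over `ℚ`, and `M` the maximal extension
`F_U` of `F` in an algebraic closure `Ω` which is unramified over the elements of `U`.  Then for every
continuous section `s` of `Gal(M/F) → G_ℚ` there is an `i` such that, for all places `p` of `M` with
values in an algebraic closure `C` of `ℚ₂` which give the section over `ℚ₂`, the value of `x` at `p`
is `e_i`. -/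
def LocalAtTwo {K : Type} [Fintype K] (e : K → ℤ) (d : ℤ) : Prop :=
  ∀ (F Ω M B C : Type) [Field F] [Field Ω] [Field M] [Field B] [Field C] [Algebra ℚ F] [Algebra F Ω]
    [Algebra ℚ Ω] [Algebra F M] [Algebra ℚ M] [Algebra ℚ B] [Algebra ℚ C] [Algebra ℚ_[2] C]
    [IsScalarTower ℚ F Ω] [IsScalarTower ℚ F M] [IsAlgClosure F Ω] [IsAlgClosure ℚ B]
    [IsAlgClosure ℚ_[2] C] (x y : F) (U : Set (ValuationSubring F)) (ι : M →ₐ[F] Ω),
    (∀ O ∈ U, ∀ c : ℚ, algebraMap ℚ F c ∈ O) → ι.fieldRange = unramified F Ω U →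
    Transcendental ℚ x → (d : F) * y ^ 2 = ∏ i, (x - (e i : F)) →
    ∀ s : GalSection ℚ F M B, ∃ i, ∀ p : Plc ℚ M C, s.GivenBy ℚ_[2] p →
      p.val (algebraMap F M x) (algebraMap ℚ C (e i))

/-- The condition on the branch points: for `i ≠ k` there are `l, l'` different from `i` and `k`, such
that the integer `(e_i - e_l) (e_i - e_l') (e_k - e_l) (e_k - e_l')` is not a square. -/
def CrossRatio {K : Type} (e : K → ℤ) : Prop :=
  ∀ i k, i ≠ k → ∃ l l', l ≠ i ∧ l ≠ k ∧ l' ≠ i ∧ l' ≠ k ∧
    ¬ IsSquare ((e i - e l) * (e i - e l') * ((e k - e l) * (e k - e l')))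

/-- For every `i`, four of the numbers `1 / (e_l - e_i)`, `l ≠ i`, form an arithmetic progression. -/
def Progressions {K : Type} (e : K → ℤ) : Prop :=
  ∀ i, ∃ (l : Fin 4 → K) (z δ : ℚ), δ ≠ 0 ∧ (∀ j, l j ≠ i) ∧
    ∀ j : Fin 4, ((e (l j) : ℚ) - e i)⁻¹ = z + (j : ℕ) * δ

/-- the six branch points of the example of genus 2 -/
def ex : Fin 6 → ℤ := ![0, 6, 10, 15, 30, -30]

/-- the consecutive integers `0, 1, …, N - 1` -/
def consecutive (N : ℕ) : Fin N → ℤ := fun i => (i : ℕ)

theorem local_at_two {K : Type} [Fintype K] {e : K → ℤ} (he : Function.Injective e)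
    (hPr : Progressions e) {d : ℤ}
    (hbad : ¬ Pool.Agent.W623.SecG.Bad2.{0, 0} e d) : LocalAtTwo e d := by
  classical
  intro F Ω M B C _ _ _ _ _ _ _ _ _ _ _ _ _ _ _ _ _ _ x y U ι hU hι hx hxy s
  have hcl : IsAlgClosed Ω := IsAlgClosure.isAlgClosed F
  have halg : Algebra.IsAlgebraic F Ω := IsAlgClosure.isAlgebraic
  have : Algebra.IsAlgebraic F M := Algebra.IsAlgebraic.of_injective ι ι.injective
  have : Algebra.IsAlgebraic ℚ B := IsAlgClosure.isAlgebraic
  have : IsScalarTower ℚ ℚ_[2] C := IsScalarTower.of_algebraMap_eq' (Subsingleton.elim _ _)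
  set G : GSection ℚ F Ω U := Pool.Agent.TH213.SEL.ofGal ι hι s with hG
  obtain ⟨i, hi⟩ : ∃ i, Pool.Agent.W623.SecG.At G x e i := by
    by_contra hno
    push Not at hno
    exact hbad ⟨F, Ω, inferInstance, inferInstance, inferInstance, inferInstance, inferInstance,
      inferInstance, hcl, halg, U, G, x, y, hU, hx, hxy, hno⟩
  have hE : Function.Injective (fun k : K => (e k : ℚ)) := by
    intro a b h
    have h' : (e a : ℚ) = (e b : ℚ) := h
    exact he (by exact_mod_cast h')
  obtain ⟨l, z, δ, hδ, hl, hAP⟩ := hPr i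
  refine ⟨i, fun p hp => ?_⟩
  have h1 : p.val (algebraMap F M (x - algebraMap ℚ F (e i))) 0 := by
    refine Pool.Agent.Zk12.two_val (F := F) (M := M) (B := B) (C := C) s
      (Pool.Agent.Zk12.rootN_unr U hU ι hι s.j) p hp hx (fun k => (e k : ℚ)) i ?_ l hl
      (fun j h => hl j (hE h)) z δ hδ hAP
    intro m m' h1 h2
    obtain ⟨γ, h3, h4⟩ := hi m m' h1 h2
    refine ⟨Pool.Agent.TH213.SEL.phi ι hι γ, Pool.Agent.TH213.SEL.fixed_of_ofGal ι hι s h3, ?_⟩
    apply ι.injective
    change ι (Pool.Agent.TH213.SEL.phi ι hι γ ^ 2) = ι (algebraMap F M _)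
    rw [map_pow, Pool.Agent.TH213.SEL.e_phi, h4, ι.commutes]
    congr 1
    simp only [map_mul, map_sub, map_intCast]
    push_cast
    ring
  have h2 := h1.add (Plc.val_alg (pl := p) (e i : ℚ))
  have h3 : algebraMap F M (x - algebraMap ℚ F (e i)) + algebraMap ℚ M (e i) =
      algebraMap F M x := by
    rw [map_sub, ← IsScalarTower.algebraMap_apply]
    ring
  rwa [h3, zero_add] at h2

lemma not_sq_mod {N : ℤ} (h : N % 7 = 3 ∨ N % 7 = 5 ∨ N % 7 = 6) : ¬ IsSquare N := by
  rintro ⟨r, rfl⟩
  have h1 : r % 7 = 0 ∨ r % 7 = 1 ∨ r % 7 = 2 ∨ r % 7 = 3 ∨ r % 7 = 4 ∨ r % 7 = 5 ∨ r % 7 = 6 := by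
    omega
  rcases h1 with h1 | h1 | h1 | h1 | h1 | h1 | h1 <;>
    rw [Int.mul_emod, h1] at h <;> revert h <;> decide

/-- witnesses for `CrossRatio` -/
def wit : Fin 6 → Fin 6 → Fin 6 × Fin 6 :=
  ![![(0, 0), (2, 3), (1, 3), (1, 2), (1, 5), (1, 2)], ![(2, 3), (0, 0), (0, 3), (0, 2), (0, 2), (0, 2)],
    ![(1, 3), (0, 3), (0, 0), (0, 1), (0, 3), (0, 1)], ![(1, 2), (0, 2), (0, 1), (0, 0), (0, 1), (0, 4)],
    ![(1, 5), (0, 2), (0, 3), (0, 1), (0, 0), (0, 1)], ![(1, 2), (0, 2), (0, 1), (0, 4), (0, 1), (0, 0)]]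

lemma crossRatio_ex : CrossRatio ex := by
  have h : ∀ i k : Fin 6, i ≠ k → (wit i k).1 ≠ i ∧ (wit i k).1 ≠ k ∧ (wit i k).2 ≠ i ∧
      (wit i k).2 ≠ k ∧
      (((ex i - ex (wit i k).1) * (ex i - ex (wit i k).2) *
        ((ex k - ex (wit i k).1) * (ex k - ex (wit i k).2))) % 7 = 3 ∨
      ((ex i - ex (wit i k).1) * (ex i - ex (wit i k).2) *
        ((ex k - ex (wit i k).1) * (ex k - ex (wit i k).2))) % 7 = 5 ∨
      ((ex i - ex (wit i k).1) * (ex i - ex (wit i k).2) *
        ((ex k - ex (wit i k).1) * (ex k - ex (wit i k).2))) % 7 = 6) := by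
    decide
  intro i k hik
  obtain ⟨h1, h2, h3, h4, h5⟩ := h i k hik
  exact ⟨_, _, h1, h2, h3, h4, not_sq_mod h5⟩

lemma progressions_ex : Progressions ex := by
  intro i
  fin_cases i
  · refine ⟨![5, 4, 2, 1], -1 / 30, 1 / 15, by norm_num, by decide, fun j => ?_⟩
    fin_cases j <;> simp [ex] <;> norm_num
  · refine ⟨![0, 5, 3, 2], -1 / 6, 5 / 36, by norm_num, by decide, fun j => ?_⟩
    fin_cases j <;> simp [ex] <;> norm_num
  · refine ⟨![1, 0, 4, 3], -1 / 4, 3 / 20, by norm_num, by decide, fun j => ?_⟩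
    fin_cases j <;> simp [ex] <;> norm_num
  · refine ⟨![2, 1, 5, 4], -1 / 5, 4 / 45, by norm_num, by decide, fun j => ?_⟩
    fin_cases j <;> simp [ex] <;> norm_num
  · refine ⟨![3, 2, 0, 5], -1 / 15, 1 / 60, by norm_num, by decide, fun j => ?_⟩
    fin_cases j <;> simp [ex] <;> norm_num
  · refine ⟨![4, 3, 1, 0], 1 / 60, 1 / 180, by norm_num, by decide, fun j => ?_⟩
    fin_cases j <;> simp [ex] <;> norm_num

lemma progressions_cons {N : ℕ} (hN : 16 ≤ N) : Progressions (consecutive N) := by
  intro i
  obtain ⟨i, hi⟩ := i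
  have key : ∀ (n : Fin 4 → ℤ) (z δ : ℚ), δ ≠ 0 → (∀ j, n j ≠ 0 ∧ 0 ≤ (i : ℤ) + n j ∧
      (i : ℤ) + n j < N) → (∀ j : Fin 4, ((n j : ℤ) : ℚ)⁻¹ = z + (j : ℕ) * δ) →
      ∃ (l : Fin 4 → Fin N) (z δ : ℚ), δ ≠ 0 ∧ (∀ j, l j ≠ ⟨i, hi⟩) ∧
        ∀ j : Fin 4, ((consecutive N (l j) : ℚ) - consecutive N ⟨i, hi⟩)⁻¹ = z + (j : ℕ) * δ := by
    intro n z δ hδ h1 h2
    refine ⟨fun j => ⟨((i : ℤ) + n j).toNat, by have := h1 j; omega⟩, z, δ, hδ, ?_, ?_⟩
    · intro j h
      have h3 := congrArg Fin.val h
      have h4 := h1 j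
      simp only at h3
      omega
    · intro j
      rw [← h2 j]
      congr 1
      have h3 := h1 j
      have h4 : (consecutive N ⟨((i : ℤ) + n j).toNat, by omega⟩ : ℤ) = i + n j := by
        simp only [consecutive]
        omega
      rw [h4]
      simp only [consecutive]
      push_cast
      ring
  by_cases h1 : i ≤ 2
  · refine key ![12, 6, 4, 3] (1 / 12) (1 / 12) (by norm_num) ?_ ?_
    · intro j
      fin_cases j <;> simp <;> omega
    · intro j
      fin_cases j <;> norm_num
  · by_cases h2 : i + 4 ≤ N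
    · refine key ![-1, -3, 3, 1] (-1) (2 / 3) (by norm_num) ?_ ?_
      · intro j
        fin_cases j <;> simp <;> omega
      · intro j
        fin_cases j <;> norm_num
    · refine key ![-12, -6, -4, -3] (-1 / 12) (-1 / 12) (by norm_num) ?_ ?_
      · intro j
        fin_cases j <;> simp <;> omega
      · intro j
        fin_cases j <;> norm_num

lemma not_sq_neg {a : ℤ} (h : a < 0) : ¬ IsSquare a := fun h1 => absurd h1.nonneg (by omega)

/-- the condition for a pair and the integers themselves -/
lemma cross_aux {N : ℕ} (i k : Fin N) (l l' : ℕ) (h1 : l < N) (h2 : l' < N)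
    (h3 : l ≠ i) (h4 : l ≠ k) (h5 : l' ≠ i) (h6 : l' ≠ k)
    (h : ¬ IsSquare ((((i : ℕ) : ℤ) - l) * (((i : ℕ) : ℤ) - l') *
      ((((k : ℕ) : ℤ) - l) * (((k : ℕ) : ℤ) - l')))) :
    ∃ l l', l ≠ i ∧ l ≠ k ∧ l' ≠ i ∧ l' ≠ k ∧
      ¬ IsSquare ((consecutive N i - consecutive N l) * (consecutive N i - consecutive N l') *
        ((consecutive N k - consecutive N l) * (consecutive N k - consecutive N l'))) :=
  ⟨⟨l, h1⟩, ⟨l', h2⟩, fun h => h3 (by rw [← h]), fun h => h4 (by rw [← h]),
    fun h => h5 (by rw [← h]), fun h => h6 (by rw [← h]), h⟩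

lemma cross_lt {N : ℕ} (hN : 16 ≤ N) (i k : Fin N) (hik : (i : ℕ) < k) :
    ∃ l l', l ≠ i ∧ l ≠ k ∧ l' ≠ i ∧ l' ≠ k ∧
      ¬ IsSquare ((consecutive N i - consecutive N l) * (consecutive N i - consecutive N l') *
        ((consecutive N k - consecutive N l) * (consecutive N k - consecutive N l'))) := by
  have hk : (k : ℕ) < N := k.2
  by_cases h1 : (k : ℕ) = i + 1
  · -- neighbours
    by_cases h2 : (k : ℕ) + 2 < N
    · refine cross_aux i k (k + 1) (k + 2) (by omega) h2 (by omega) (by omega) (by omega)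
        (by omega) ?_
      rw [h1]
      push_cast
      have : ((((i : ℕ) : ℤ) - ((i : ℕ) + 1 + 1)) * (((i : ℕ) : ℤ) - ((i : ℕ) + 1 + 2)) *
          ((((i : ℕ) : ℤ) + 1 - ((i : ℕ) + 1 + 1)) * (((i : ℕ) : ℤ) + 1 - ((i : ℕ) + 1 + 2)))) =
            12 := by ring
      rw [this]
      exact not_sq_mod (by decide)
    · obtain ⟨m, hm⟩ : ∃ m, (i : ℕ) = m + 2 := ⟨i - 2, by omega⟩
      refine cross_aux i k m (m + 1) (by omega) (by omega) (by omega) (by omega) (by omega)
        (by omega) ?_
      rw [h1, hm]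
      push_cast
      have : (((m : ℤ) + 2 - m) * ((m : ℤ) + 2 - (m + 1)) *
          (((m : ℤ) + 2 + 1 - m) * ((m : ℤ) + 2 + 1 - (m + 1)))) = 12 := by ring
      rw [this]
      exact not_sq_mod (by decide)
  · -- one index inside
    by_cases h2 : 0 < (i : ℕ)
    · refine cross_aux i k (i + 1) 0 (by omega) (by omega) (by omega) (by omega) (by omega)
        (by omega) (not_sq_neg ?_)
      obtain ⟨m, hm⟩ : ∃ m, (k : ℕ) = i + 2 + m := ⟨k - i - 2, by omega⟩
      rw [hm]
      push_cast
      have : ((((i : ℕ) : ℤ) - ((i : ℕ) + 1)) * (((i : ℕ) : ℤ) - 0) *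
          ((((i : ℕ) : ℤ) + 2 + m - ((i : ℕ) + 1)) * (((i : ℕ) : ℤ) + 2 + m - 0))) =
            -(((i : ℕ) : ℤ) * (((m : ℤ) + 1) * (((i : ℕ) : ℤ) + 2 + m))) := by ring
      rw [this]
      have h3 : (0 : ℤ) < (i : ℕ) := by exact_mod_cast h2
      have h4 : (0 : ℤ) ≤ m := Int.natCast_nonneg m
      have : 0 < ((i : ℕ) : ℤ) * (((m : ℤ) + 1) * (((i : ℕ) : ℤ) + 2 + m)) := by positivity
      omega
    · by_cases h3 : (k : ℕ) + 1 < N
      · refine cross_aux i k 1 (k + 1) (by omega) h3 (by omega) (by omega) (by omega)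
          (by omega) (not_sq_neg ?_)
        have h0 : (i : ℕ) = 0 := by omega
        obtain ⟨m, hm⟩ : ∃ m, (k : ℕ) = 2 + m := ⟨k - 2, by omega⟩
        have h4 : (0 : ℤ) ≤ m := Int.natCast_nonneg m
        have h5 : 0 < (3 + (m : ℤ)) * ((m : ℤ) + 1) := by positivity
        refine lt_of_eq_of_lt (b := -((3 + (m : ℤ)) * ((m : ℤ) + 1))) ?_ (by omega)
        rw [hm, h0]
        push_cast
        ring
      · refine cross_aux i k 1 4 (by omega) (by omega) (by omega) (by omega) (by omega)
          (by omega) ?_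
        have h0 : (i : ℕ) = 0 := by omega
        obtain ⟨m, hm⟩ : ∃ m, (k : ℕ) = 15 + m := ⟨k - 15, by omega⟩
        rw [hm, h0]
        push_cast
        rintro ⟨r, hr'⟩
        have hr : 2 * 2 * (((m : ℤ) + 14) * (m + 11)) = r * r := by
          rw [← hr']
          ring
        have h4 : (0 : ℤ) ≤ m := Int.natCast_nonneg m
        -- `r = 2 s`
        have h5 : (2 : ℤ) ∣ r := by
          have : (2 : ℤ) ∣ r * r := by
            rw [← hr]
            exact ⟨2 * (((m : ℤ) + 14) * (m + 11)), by ring⟩
          rcases Int.prime_two.dvd_or_dvd this with h | h <;> exact h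
        obtain ⟨s, rfl⟩ := h5
        have h6 : ((m : ℤ) + 14) * (m + 11) = s * s := by nlinarith
        have h7 : |s| * |s| = s * s := abs_mul_abs_self s
        have h8 : (m : ℤ) + 12 < |s| := by
          by_contra hcon
          rw [not_lt] at hcon
          have h9 : |s| * |s| ≤ (m + 12) * (m + 12) := mul_self_le_mul_self (abs_nonneg s) hcon
          nlinarith
        have h9 : (m : ℤ) + 13 ≤ |s| := h8
        have h10 : ((m : ℤ) + 13) * (m + 13) ≤ |s| * |s| :=
          mul_self_le_mul_self (by positivity) h9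
        nlinarith

lemma crossRatio_cons {N : ℕ} (hN : 16 ≤ N) : CrossRatio (consecutive N) := by
  intro i k hik
  rcases lt_or_gt_of_ne hik with h | h
  · exact cross_lt hN i k h
  · obtain ⟨l, l', h1, h2, h3, h4, h5⟩ := cross_lt hN k i h
    exact ⟨l, l', h2, h1, h4, h3, by rwa [mul_comm]⟩

/-- **Almost all quadratic twists: sections which are given by a point over `ℚ₂` only.** -/
theorem result :
    (∀ (K : Type) [Fintype K] (e : K → ℤ), Function.Injective e → Even (Fintype.card K) →
      6 ≤ Fintype.card K → CrossRatio e → Progressions e → ∃ C : ℝ, ∀ X : ℕ, 2 ≤ X →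
        ({d : ℤ | d.natAbs ≤ X ∧ Squarefree d ∧ ¬ LocalAtTwo e d}.ncard : ℝ) ≤
          C * X * (Real.log X) ^ (-(1 / 5) : ℝ)) ∧
    (Function.Injective ex ∧ CrossRatio ex ∧ Progressions ex) ∧
    (∀ N : ℕ, 16 ≤ N → Function.Injective (consecutive N) ∧ CrossRatio (consecutive N) ∧
      Progressions (consecutive N)) := by
  refine ⟨?_, ⟨by decide, crossRatio_ex, progressions_ex⟩, fun N hN => ⟨fun a b h => ?_,
    crossRatio_cons hN, progressions_cons hN⟩⟩
  · intro K _ e he hev hK hCR hPr
    classical
    obtain ⟨C, hC⟩ := Pool.Agent.W262.G3.fin2.{0, 0} Pool.Agent.W623.SecG.secloc2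
      Pool.Agent.W623.SecE.secglob K e he hev hK hCR
    refine ⟨C, fun X hX => le_trans ?_ (hC X hX)⟩
    have hfin : {d : ℤ | d.natAbs ≤ X ∧ Squarefree d ∧
        Pool.Agent.W623.SecG.Bad2.{0, 0} e d}.Finite := by
      refine (Finset.finite_toSet (Finset.Icc (-(X : ℤ)) X)).subset ?_
      rintro d ⟨hd1, -⟩
      rw [Finset.mem_coe, Finset.mem_Icc]
      omega
    have hsub : {d : ℤ | d.natAbs ≤ X ∧ Squarefree d ∧ ¬ LocalAtTwo e d} ⊆
        {d : ℤ | d.natAbs ≤ X ∧ Squarefree d ∧ Pool.Agent.W623.SecG.Bad2.{0, 0} e d} := by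
      rintro d ⟨hd1, hd2, hd3⟩
      refine ⟨hd1, hd2, ?_⟩
      by_contra hbad
      exact hd3 (local_at_two he hPr hbad)
    exact_mod_cast Set.ncard_le_ncard hsub hfin
  · have h' : ((a : ℕ) : ℤ) = ((b : ℕ) : ℤ) := h
    exact Fin.ext (by exact_mod_cast h')

end Pool.Agent.Results.MP_c1dca2_ag.TwistsLocalAtTwo
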